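import Pool.Agent.H297.QL.Main

/-!
MP_df4ecf_al, Q2: the lower central series Lie ring of `IA_n` is not always quadratic.

* `gam G k` (Pool/Agent/H297/QL/Gr.lean) is `Γ_k(G)` for `k ≥ 1`, with `gam G 0 = G` by convention;
  `Gr G k = Γ_k/Γ_{k+1}` (trivial for `k = 0`), and `E G = ⨁_k Gr G k` is the graded Lie ring
  `E_0^*(G)`, with the bracket induced by the commutators; `comp k : Gr G k → E G` is the inclusion.
* `LV V` (Pool/Agent/H297/QL/Free.lean) is the free Lie ring `L[V]` on the abelian group `V`, the
  quotient of the free Lie ring on the set `V` by the relations `[v + w] = [v] + [w]`; `Lk V k` is its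
  homogeneous component of degree `k`.
* `IsQuadratic G`: there are a set `S ⊆ L_2[V]`, with `V = Gr G 1 = G/[G,G]`, and an isomorphism of
  graded Lie rings from `L[V]/(S)` to `E_0^*(G)`.
* `IA n` (Pool/Agent/H297/QL/Ia.lean) is the group of the automorphisms of the free group `F_n` which
  induce the identity on `F_n/[F_n,F_n]`.

Proof. The automorphisms `L : x₃ ↦ [x₁,x₂] x₃` and `R : x₃ ↦ x₃ [x₁,x₂]` have the same class `l` in
`E_0^1`, since `L R⁻¹` is the commutator of two automorphisms `x₃ ↦ u x₃ u⁻¹`. With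
`C : x₃ ↦ x₁ x₃ x₁⁻¹` and `c` its class, `[C,R]` is of the form `x₃ ↦ x₃ v(x₁,x₂)` and commutes with
`L`. So `[l,[c,l]] = 0` in `E_0^3`. The coefficients of `X₁X₂`, `X₁X₃`, `X₁X₁X₂` in the Magnus
expansions of the images of `x₂`, `x₃` give a homomorphism from `IA_3` to a nilpotent group of class
two; it shows that all relations of degree two hold in the Lie ring with basis `λ, γ, δ, ε` and
nonzero brackets `[λ,γ] = δ`, `[λ,δ] = ε`, where `l ↦ λ` and `c ↦ γ`; there `[λ,[γ,λ]] = -ε ≠ 0`.
-/

set_option autoImplicit false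

namespace Pool.Agent.Results.MP_df4ecf_al.IAThreeNotQuadratic

open Pool.Agent.H297.QL

/-- **`E_0^*(IA_3)` is not a free Lie algebra modulo quadratic relations.** -/
theorem result : ¬ IsQuadratic (IA 3) := not_quadratic

end Pool.Agent.Results.MP_df4ecf_al.IAThreeNotQuadratic
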